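import Pool.Agent.H.MP_374efc_lc.Base

/-!
# MP_374efc_lc: the chain of the words which are products of small tokens

`Lp h om m`: words `z` such that `z` is empty or `h(z)` is a product of `om` and of words of `Lp h om (m-1)`.
If `om` lies in some `Lp h om m` then `h^m(om)` is a product of words `h^j(om)`, `j < m` (`lc_of_lp`).
`Rw ρ w` is the relation of the word `w` for relations `ρ a` of the letters.
-/

set_option autoImplicit false

namespace D0L

/-- Concatenations of words with the property `P`. -/
def Sp {α : Type*} (P : List α → Prop) (x : List α) : Prop :=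
  ∃ L : List (List α), x = L.flatten ∧ ∀ y ∈ L, P y

/-- The chain `L_m`. -/
def Lp {α : Type*} (h : α → List α) (om : List α) : ℕ → List α → Prop
  | 0 => fun z => z = []
  | m + 1 => fun z => Sp (fun y => Lp h om m y ∨ y = om) (app h z)

/-- The union of the chain. -/
def Li {α : Type*} (h : α → List α) (om : List α) (z : List α) : Prop := ∃ m, Lp h om m z

/-- The relation of a word. -/
def Rw {α S : Type*} (ρ : α → S → S → Prop) : List α → S → S → Prop
  | [] => fun s s' => s = s'
  | a :: z => fun s s' => ∃ t, ρ a s t ∧ Rw ρ z t s'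

section basic

variable {α S : Type*}

theorem Sp.nil (P : List α → Prop) : Sp P [] := ⟨[], rfl, by simp⟩

theorem Sp.one {P : List α → Prop} {y : List α} (hy : P y) : Sp P y := ⟨[y], by simp, by simpa⟩

theorem Sp.mul {P : List α → Prop} {x y : List α} (hx : Sp P x) (hy : Sp P y) : Sp P (x ++ y) := by
  obtain ⟨L, rfl, hL⟩ := hx
  obtain ⟨K, rfl, hK⟩ := hy
  refine ⟨L ++ K, by simp, ?_⟩
  intro z hz
  rcases List.mem_append.1 hz with h | h
  · exact hL z h
  · exact hK z h

theorem Sp.mono {P Q : List α → Prop} (hPQ : ∀ y, P y → Q y) {x : List α} (hx : Sp P x) :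
    Sp Q x := by
  obtain ⟨L, rfl, hL⟩ := hx
  exact ⟨L, rfl, fun y hy => hPQ y (hL y hy)⟩

/-- Products of products. -/
theorem Sp.bind {P Q : List α → Prop} (hPQ : ∀ y, P y → Sp Q y) {x : List α} (hx : Sp P x) :
    Sp Q x := by
  obtain ⟨L, rfl, hL⟩ := hx
  induction L with
  | nil => exact Sp.nil Q
  | cons y L ih =>
    rw [List.flatten_cons]
    exact Sp.mul (hPQ y (hL y (by simp))) (ih fun z hz => hL z (by simp [hz]))

theorem lp_zero {h : α → List α} {om z : List α} : Lp h om 0 z ↔ z = [] := Iff.rfl

theorem lp_succ {h : α → List α} {om z : List α} {m : ℕ} :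
    Lp h om (m + 1) z ↔ Sp (fun y => Lp h om m y ∨ y = om) (app h z) := Iff.rfl

theorem lp_nil (h : α → List α) (om : List α) (m : ℕ) : Lp h om m [] := by
  cases m with
  | zero => rfl
  | succ m => exact Sp.nil _

theorem lp_mul {h : α → List α} {om x y : List α} {m : ℕ} (hx : Lp h om m x)
    (hy : Lp h om m y) : Lp h om m (x ++ y) := by
  cases m with
  | zero =>
    rw [lp_zero] at hx hy ⊢
    rw [hx, hy, List.append_nil]
  | succ m =>
    rw [lp_succ] at hx hy ⊢
    rw [app_append]
    exact Sp.mul hx hy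

theorem lp_mono_succ (h : α → List α) (om : List α) (m : ℕ) : ∀ z, Lp h om m z → Lp h om (m + 1) z := by
  induction m with
  | zero =>
    intro z hz
    rw [lp_zero] at hz
    rw [hz]
    exact lp_nil h om _
  | succ m ih =>
    intro z hz
    rw [lp_succ] at hz ⊢
    exact Sp.mono (fun y hy => hy.imp (ih y) id) hz

theorem lp_mono {h : α → List α} {om : List α} {m k : ℕ} (hmk : m ≤ k) {z : List α}
    (hz : Lp h om m z) : Lp h om k z := by
  induction k, hmk using Nat.le_induction with
  | base => exact hz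
  | succ k _ ih => exact lp_mono_succ h om k z ih

/-- Words of the chain are mapped to products of tokens. -/
theorem sp_of_lp {h : α → List α} {om : List α} (m : ℕ) : ∀ z, Lp h om m z →
    Sp (fun y => ∃ j < m, y = it h j om) (it h m z) := by
  induction m with
  | zero =>
    intro z hz
    rw [lp_zero] at hz
    rw [hz]
    exact Sp.nil _
  | succ m ih =>
    intro z hz
    rw [lp_succ] at hz
    obtain ⟨L, hL, hL'⟩ := hz
    rw [it_succ', hL, it_flatten]
    refine Sp.bind (P := fun y => ∃ x ∈ L, y = it h m x) ?_ ⟨L.map (it h m), rfl, ?_⟩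
    · rintro y ⟨x, hx, rfl⟩
      rcases hL' x hx with h1 | h1
      · refine Sp.mono ?_ (ih x h1)
        rintro y ⟨j, hj, rfl⟩
        exact ⟨j, by omega, rfl⟩
      · refine Sp.one ⟨m, by omega, ?_⟩
        rw [h1]
    · intro y hy
      obtain ⟨x, hx, rfl⟩ := List.mem_map.1 hy
      exact ⟨x, hx, rfl⟩

theorem rw_nil {ρ : α → S → S → Prop} {s s' : S} : Rw ρ [] s s' ↔ s = s' := Iff.rfl

theorem rw_cons {ρ : α → S → S → Prop} {a : α} {z : List α} {s s' : S} :
    Rw ρ (a :: z) s s' ↔ ∃ t, ρ a s t ∧ Rw ρ z t s' := Iff.rfl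

theorem rw_append {ρ : α → S → S → Prop} {x y : List α} {s s' : S} :
    Rw ρ (x ++ y) s s' ↔ ∃ t, Rw ρ x s t ∧ Rw ρ y t s' := by
  induction x generalizing s with
  | nil =>
    rw [List.nil_append]
    constructor
    · intro h1
      exact ⟨s, rfl, h1⟩
    · rintro ⟨t, h1, h2⟩
      rw [rw_nil] at h1
      rw [h1]
      exact h2
  | cons a x ih =>
    rw [List.cons_append, rw_cons]
    constructor
    · rintro ⟨t, h1, h2⟩
      obtain ⟨u, h3, h4⟩ := ih.1 h2
      exact ⟨u, ⟨t, h1, h3⟩, h4⟩
    · rintro ⟨u, ⟨t, h1, h3⟩, h4⟩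
      exact ⟨t, h1, ih.2 ⟨u, h3, h4⟩⟩

theorem rw_mono {ρ σ : α → S → S → Prop} (hρ : ∀ a s s', ρ a s s' → σ a s s') {z : List α} :
    ∀ {s s' : S}, Rw ρ z s s' → Rw σ z s s' := by
  induction z with
  | nil => intro s s' h1; exact h1
  | cons a z ih =>
    rintro s s' ⟨t, h1, h2⟩
    exact ⟨t, hρ a s t h1, ih h2⟩

theorem rw_map {β : Type*} {ρ : β → S → S → Prop} (f : α → β) {z : List α} :
    ∀ {s s' : S}, Rw ρ (z.map f) s s' ↔ Rw (fun a => ρ (f a)) z s s' := by
  induction z with
  | nil => intro s s'; exact Iff.rfl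
  | cons a z ih =>
    intro s s'
    rw [List.map_cons, rw_cons, rw_cons]
    exact exists_congr fun t => and_congr Iff.rfl ih

end basic

/-! ### local certificates -/

/-- The position `i` of a word of length `l`: inner positions are the states `q + i`, the ends are the
state `0`. -/
def psn (q l i : ℕ) : ℕ := if i = 0 ∨ i = l then 0 else q + i

/-- The relation of a letter with the steps of the token `om`. -/
def rp {α : Type*} (q : ℕ) (om : List α) (ρ : α → ℕ → ℕ → Prop) (b : α) (s s' : ℕ) : Prop :=
  ρ b s s' ∨ ∃ i, om[i]? = some b ∧ s = psn q om.length i ∧ s' = psn q om.length (i + 1)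

theorem rw_om {α : Type*} (q : ℕ) (om : List α) (ρ : α → ℕ → ℕ → Prop) :
    Rw (rp q om ρ) om 0 0 := by
  by_cases hne : om = []
  · rw [hne]
    rfl
  have key : ∀ k, k ≤ om.length →
      Rw (rp q om ρ) (om.take k) 0 (psn q om.length k) := by
    intro k
    induction k with
    | zero =>
      intro _
      rw [List.take_zero]
      simp [Rw, psn]
    | succ k ih =>
      intro hk
      have hk' : k < om.length := hk
      rw [List.take_succ_eq_append_getElem hk', rw_append]
      refine ⟨_, ih (by omega), _, Or.inr ⟨k, List.getElem?_eq_getElem hk', rfl, rfl⟩, rfl⟩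
  have h1 := key om.length le_rfl
  rw [List.take_length] at h1
  simpa [psn] using h1

/-- **Soundness of local certificates.** -/
theorem cert_sound {α : Type*} {h : α → List α} {om : List α} {q : ℕ} {ρ : α → ℕ → ℕ → Prop}
    {sh : ℕ → ℕ} (h0 : sh 0 = 0)
    (hc : ∀ a s s', Rw (rp q om ρ) (h a) s s' → ρ a (sh s) (sh s')) (m : ℕ) :
    ∀ z, Lp h om m z → Rw ρ z 0 0 := by
  have lift : ∀ z s s', Rw (rp q om ρ) (app h z) s s' → Rw ρ z (sh s) (sh s') := by
    intro z
    induction z with
    | nil =>
      intro s s' h1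
      rw [app_nil, rw_nil] at h1
      rw [h1]
      rfl
    | cons a z ih =>
      intro s s' h1
      rw [app_cons, rw_append] at h1
      obtain ⟨t, h2, h3⟩ := h1
      exact ⟨sh t, hc a s t h2, ih t s' h3⟩
  induction m with
  | zero =>
    intro z hz
    rw [lp_zero] at hz
    rw [hz]
    rfl
  | succ m ih =>
    intro z hz
    rw [lp_succ] at hz
    obtain ⟨L, hL, hL'⟩ := hz
    have h1 : Rw (rp q om ρ) L.flatten 0 0 := by
      clear hL
      induction L with
      | nil => rfl
      | cons y L ihL =>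
        rw [List.flatten_cons, rw_append]
        refine ⟨0, ?_, ihL fun y hy => hL' y (List.mem_cons_of_mem _ hy)⟩
        rcases hL' y List.mem_cons_self with h2 | h2
        · exact rw_mono (fun a s s' h3 => Or.inl h3) (ih y h2)
        · rw [h2]
          exact rw_om q om ρ
    rw [← hL] at h1
    have h2 := lift z 0 0 h1
    rwa [h0] at h2

end D0L
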