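import Pool.Agent.H.MP_374efc_lc.Asm.Search
import Pool.Agent.H.MP_374efc_lc.Th.Defs

/-!
# MP_374efc_lc: local certificates as finite data

`Crt c om D` is the primitive recursive check of a certificate `D = (rho, sh, q)` for the code `c` and the
word `om`; `crt_sound`: a certificate excludes `om` from the whole chain; `crt_re`: existence of a certificate
is recursively enumerable.
-/

set_option autoImplicit false

namespace D0L

/-- Certificates: relations of the letters, shift of the states, number of states. -/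
abbrev CD : Type := List (List (ℕ × ℕ)) × List ℕ × ℕ

/-- Successors of the state `s` under the letter `b` for the relation `r`. -/
def sr (r : List (ℕ × ℕ)) (s : ℕ) : List ℕ := (r.filter (fun p => p.1 = s)).map Prod.snd

/-- Successors of the state `s` under the letter `b` by the token `om`. -/
def so (om : List ℕ) (q b s : ℕ) : List ℕ :=
  ((List.range om.length).filter (fun i => om.getD i 0 = b ∧ psn q om.length i = s)).map
    (fun i => psn q om.length (i + 1))

/-- States reached from the states `S` along a word, with the steps of the token. -/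
def rc (om : List ℕ) (q : ℕ) (rho : List (List (ℕ × ℕ))) (w : List ℕ) (S : List ℕ) : List ℕ :=
  w.foldl (fun S b => S.flatMap (fun s => sr (rho.getD b []) s ++ so om q b s)) S

/-- States reached from the states `S` along a word. -/
def rr (rho : List (List (ℕ × ℕ))) (w : List ℕ) (S : List ℕ) : List ℕ :=
  w.foldl (fun S b => S.flatMap (fun s => sr (rho.getD b []) s)) S

/-- The relations of the letters. -/
def rl (rho : List (List (ℕ × ℕ))) (a s s' : ℕ) : Prop := (s, s') ∈ rho.getD a []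

theorem mem_sr {r : List (ℕ × ℕ)} {s s' : ℕ} : s' ∈ sr r s ↔ (s, s') ∈ r := by
  unfold sr
  simp only [List.mem_map, List.mem_filter, decide_eq_true_eq]
  constructor
  · rintro ⟨⟨a, b⟩, ⟨h1, h2⟩, h3⟩
    simp only at h2 h3
    rw [← h2, ← h3]
    exact h1
  · intro h1
    exact ⟨(s, s'), ⟨h1, rfl⟩, rfl⟩

theorem mem_so {om : List ℕ} {q b s s' : ℕ} : s' ∈ so om q b s ↔
    ∃ i, om[i]? = some b ∧ s = psn q om.length i ∧ s' = psn q om.length (i + 1) := by
  unfold so
  simp only [List.mem_map, List.mem_filter, List.mem_range, decide_eq_true_eq]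
  constructor
  · rintro ⟨i, ⟨h1, h2, h3⟩, h4⟩
    refine ⟨i, ?_, h3.symm, h4.symm⟩
    rw [List.getD_eq_getElem _ _ h1] at h2
    rw [List.getElem?_eq_getElem h1, h2]
  · rintro ⟨i, h1, h2, h3⟩
    obtain ⟨h4, h5⟩ := List.getElem?_eq_some_iff.1 h1
    refine ⟨i, ⟨h4, ?_, h2.symm⟩, h3.symm⟩
    rw [List.getD_eq_getElem _ _ h4, h5]

theorem mem_rc {om : List ℕ} {q : ℕ} {rho : List (List (ℕ × ℕ))} {w : List ℕ} :
    ∀ {S : List ℕ} {s' : ℕ}, s' ∈ rc om q rho w S ↔ ∃ s ∈ S, Rw (rp q om (rl rho)) w s s' := by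
  induction w with
  | nil =>
    intro S s'
    unfold rc
    simp only [List.foldl_nil]
    constructor
    · intro h1
      exact ⟨s', h1, rfl⟩
    · rintro ⟨s, h1, h2⟩
      rw [rw_nil] at h2
      rw [← h2]
      exact h1
  | cons b w ih =>
    intro S s'
    have h1 : rc om q rho (b :: w) S =
        rc om q rho w (S.flatMap (fun s => sr (rho.getD b []) s ++ so om q b s)) := rfl
    rw [h1, ih]
    constructor
    · rintro ⟨t, h2, h3⟩
      obtain ⟨s, h4, h5⟩ := List.mem_flatMap.1 h2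
      refine ⟨s, h4, t, ?_, h3⟩
      rcases List.mem_append.1 h5 with h6 | h6
      · exact Or.inl (mem_sr.1 h6)
      · exact Or.inr (mem_so.1 h6)
    · rintro ⟨s, h4, t, h5, h3⟩
      refine ⟨t, List.mem_flatMap.2 ⟨s, h4, List.mem_append.2 ?_⟩, h3⟩
      rcases h5 with h6 | h6
      · exact Or.inl (mem_sr.2 h6)
      · exact Or.inr (mem_so.2 h6)

theorem mem_rr {rho : List (List (ℕ × ℕ))} {w : List ℕ} :
    ∀ {S : List ℕ} {s' : ℕ}, s' ∈ rr rho w S ↔ ∃ s ∈ S, Rw (rl rho) w s s' := by
  induction w with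
  | nil =>
    intro S s'
    unfold rr
    simp only [List.foldl_nil]
    constructor
    · intro h1
      exact ⟨s', h1, rfl⟩
    · rintro ⟨s, h1, h2⟩
      rw [rw_nil] at h2
      rw [← h2]
      exact h1
  | cons b w ih =>
    intro S s'
    have h1 : rr rho (b :: w) S =
        rr rho w (S.flatMap (fun s => sr (rho.getD b []) s)) := rfl
    rw [h1, ih]
    constructor
    · rintro ⟨t, h2, h3⟩
      obtain ⟨s, h4, h5⟩ := List.mem_flatMap.1 h2
      exact ⟨s, h4, t, mem_sr.1 h5, h3⟩
    · rintro ⟨s, h4, t, h5, h3⟩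
      exact ⟨t, List.mem_flatMap.2 ⟨s, h4, mem_sr.2 h5⟩, h3⟩

/-- The pairs of the relation of the word `w` with sources below `B`. -/
def prs (om : List ℕ) (q : ℕ) (rho : List (List (ℕ × ℕ))) (w : List ℕ) (B : ℕ) : List (ℕ × ℕ) :=
  (List.range B).flatMap (fun s => (rc om q rho w [s]).map (fun s' => (s, s')))

theorem mem_prs {om : List ℕ} {q : ℕ} {rho : List (List (ℕ × ℕ))} {w : List ℕ} {B s s' : ℕ} :
    (s, s') ∈ prs om q rho w B ↔ s < B ∧ Rw (rp q om (rl rho)) w s s' := by
  unfold prs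
  simp only [List.mem_flatMap, List.mem_range, List.mem_map, Prod.mk.injEq]
  constructor
  · rintro ⟨t, h1, u, h2, rfl, rfl⟩
    obtain ⟨v, h3, h4⟩ := mem_rc.1 h2
    rw [List.mem_singleton] at h3
    rw [h3] at h4
    exact ⟨h1, h4⟩
  · rintro ⟨h1, h2⟩
    exact ⟨s, h1, s', mem_rc.2 ⟨s, by simp, h2⟩, rfl, rfl⟩

/-- The check of a certificate. -/
def Crt (c : List (List ℕ) × List ℕ) (om : List ℕ) (D : CD) : Prop :=
  D.2.1.getD 0 0 = 0 ∧ 0 < D.2.2 ∧ (∀ p ∈ D.1.flatten, p.1 < D.2.2) ∧
  (∀ a ∈ List.range c.1.length, c.1.getD a [] ≠ [] ∧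
    ∀ p ∈ prs om D.2.2 D.1 (c.1.getD a []) (D.2.2 + om.length + 1),
      (D.2.1.getD p.1 0, D.2.1.getD p.2 0) ∈ D.1.getD a []) ∧
  0 ∉ rr D.1 om [0]

/-- **Soundness.** -/
theorem crt_sound {n : ℕ} {H : Fin n → List (Fin n)} {b0 om : List (Fin n)} {D : CD}
    (hD : Crt (cd H b0) (om.map Fin.val) D) (m : ℕ) : ¬ Lp H om m om := by
  obtain ⟨h1, h2, h3, h4, h5⟩ := hD
  set q := D.2.2 with hq
  set rho := D.1 with hrho
  set sh : ℕ → ℕ := fun s => D.2.1.getD s 0 with hsh
  intro hm
  apply h5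
  rw [mem_rr]
  refine ⟨0, by simp, ?_⟩
  rw [rw_map Fin.val]
  refine cert_sound (h := H) (om := om) (q := q) (sh := sh) (ρ := fun a => rl rho (a : ℕ)) h1 ?_ m
    om hm
  intro a s s' hss
  have ha : (a : ℕ) ∈ List.range (cd H b0).1.length := by
    rw [List.mem_range]
    unfold cd
    rw [List.length_ofFn]
    exact a.2
  obtain ⟨h6, h7⟩ := h4 a ha
  have h8 : (cd H b0).1.getD a [] = (H a).map Fin.val := hs_cd a
  rw [h8] at h6 h7
  have hrp : ∀ (b : Fin n) (t t' : ℕ), rp q om (fun a => rl rho (a : ℕ)) b t t' ↔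
      rp q (om.map Fin.val) (rl rho) (b : ℕ) t t' := by
    intro b t t'
    unfold rp
    rw [List.length_map]
    refine or_congr Iff.rfl (exists_congr fun i => and_congr ?_ Iff.rfl)
    rw [List.getElem?_map]
    constructor
    · intro h9
      rw [h9]
      rfl
    · intro h9
      rcases h10 : om[i]? with _ | x
      · rw [h10] at h9
        simp at h9
      · rw [h10] at h9
        simp only [Option.map_some, Option.some.injEq] at h9
        rw [Fin.ext h9]
  have h9 : Rw (rp q (om.map Fin.val) (rl rho)) ((H a).map Fin.val) s s' := by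
    rw [rw_map Fin.val]
    exact rw_mono (fun b t t' => (hrp b t t').1) hss
  have h10 : s < q + (om.map Fin.val).length + 1 := by
    rcases hHa : (H a).map Fin.val with _ | ⟨b, w⟩
    · exact absurd hHa h6
    · rw [hHa] at h9
      obtain ⟨t, h11, _⟩ := h9
      rcases h11 with h12 | ⟨i, h12, h13, _⟩
      · have h14 : (s, t) ∈ rho.flatten := by
          unfold rl at h12
          by_cases hb : b < rho.length
          · rw [List.getD_eq_getElem _ _ hb] at h12
            exact List.mem_flatten.2 ⟨_, List.getElem_mem hb, h12⟩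
          · rw [List.getD_eq_default _ _ (by omega)] at h12
            simp at h12
        have := h3 _ h14
        simp only at this
        omega
      · obtain ⟨h15, _⟩ := List.getElem?_eq_some_iff.1 h12
        rw [h13]
        unfold psn
        split_ifs <;> omega
  exact h7 (s, s') (mem_prs.2 ⟨h10, h9⟩)

/-! ### computability -/

section prim

open Primrec

theorem prim_psn : Primrec (fun x : ℕ × ℕ × ℕ => psn x.1 x.2.1 x.2.2) := by
  unfold psn
  refine Primrec.ite ?_ (const 0) (nat_add.comp fst (snd.comp snd))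
  exact (Primrec.eq.comp (snd.comp snd) (const 0)).or
    (Primrec.eq.comp (snd.comp snd) (fst.comp snd))

theorem prim_sr : Primrec₂ sr := by
  have h1 : PrimrecRel (fun (p : ℕ × ℕ) (x : List (ℕ × ℕ) × ℕ) => p.1 = x.2) :=
    Primrec.eq.comp₂ (fst.comp fst).to₂ (snd.comp snd).to₂
  have h2 : Primrec (fun x : List (ℕ × ℕ) × ℕ => x.1.filter (fun p => p.1 = x.2)) := by
    have h3 := h1.listFilter
    exact h3.comp fst .id
  exact (list_map h2 ((snd.comp snd).to₂)).to₂

theorem prim_so : Primrec (fun x : List ℕ × ℕ × ℕ × ℕ => so x.1 x.2.1 x.2.2.1 x.2.2.2) := by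
  have h1 : PrimrecRel (fun (i : ℕ) (x : List ℕ × ℕ × ℕ × ℕ) =>
      x.1.getD i 0 = x.2.2.1 ∧ psn x.2.1 x.1.length i = x.2.2.2) := by
    refine PrimrecPred.and ?_ ?_
    · refine Primrec.eq.comp ?_ ?_
      · exact (list_getD 0).comp (fst.comp snd) fst
      · exact fst.comp (snd.comp (snd.comp snd))
    · refine Primrec.eq.comp ?_ (snd.comp (snd.comp (snd.comp snd)))
      exact prim_psn.comp (Primrec.pair (fst.comp (snd.comp snd))
        (Primrec.pair (list_length.comp (fst.comp snd)) fst))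
  have h2 : Primrec (fun x : List ℕ × ℕ × ℕ × ℕ => (List.range x.1.length).filter
      (fun i => x.1.getD i 0 = x.2.2.1 ∧ psn x.2.1 x.1.length i = x.2.2.2)) := by
    have h3 := h1.listFilter
    exact h3.comp (list_range.comp (list_length.comp fst)) .id
  unfold so
  refine list_map h2 ?_
  exact (prim_psn.comp (Primrec.pair (fst.comp (snd.comp fst))
    (Primrec.pair (list_length.comp (fst.comp fst)) (succ.comp snd)))).to₂

theorem prim_rho {β : Type} [Primcodable β] {f : β → List (List (ℕ × ℕ))} {g : β → ℕ}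
    (hf : Primrec f) (hg : Primrec g) : Primrec (fun x => (f x).getD (g x) []) :=
  (list_getD []).comp hf hg

/-- `rc` with its arguments as a tuple. -/
theorem prim_rc : Primrec (fun x : List ℕ × ℕ × List (List (ℕ × ℕ)) × List ℕ × List ℕ =>
    rc x.1 x.2.1 x.2.2.1 x.2.2.2.1 x.2.2.2.2) := by
  unfold rc
  refine list_foldl (f := fun x : List ℕ × ℕ × List (List (ℕ × ℕ)) × List ℕ × List ℕ =>
      x.2.2.2.1) (g := fun x => x.2.2.2.2)
    (h := fun x y => y.1.flatMap (fun s => sr (x.2.2.1.getD y.2 []) s ++ so x.1 x.2.1 y.2 s))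
    (fst.comp (snd.comp (snd.comp snd))) (snd.comp (snd.comp (snd.comp snd))) ?_
  refine (list_flatMap
    (f := fun z : (List ℕ × ℕ × List (List (ℕ × ℕ)) × List ℕ × List ℕ) × (List ℕ × ℕ) => z.2.1)
    (g := fun z s => sr (z.1.2.2.1.getD z.2.2 []) s ++ so z.1.1 z.1.2.1 z.2.2 s)
    (fst.comp snd) ?_).to₂
  have h1 : Primrec (fun z : ((List ℕ × ℕ × List (List (ℕ × ℕ)) × List ℕ × List ℕ) ×
      (List ℕ × ℕ)) × ℕ => z.1.1.2.2.1.getD z.1.2.2 []) :=
    prim_rho (fst.comp (snd.comp (snd.comp (fst.comp fst)))) (snd.comp (snd.comp fst))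
  have h2 : Primrec (fun z : ((List ℕ × ℕ × List (List (ℕ × ℕ)) × List ℕ × List ℕ) ×
      (List ℕ × ℕ)) × ℕ => so z.1.1.1 z.1.1.2.1 z.1.2.2 z.2) :=
    prim_so.comp (Primrec.pair (fst.comp (fst.comp fst))
      (Primrec.pair (fst.comp (snd.comp (fst.comp fst)))
        (Primrec.pair (snd.comp (snd.comp fst)) snd)))
  exact list_append.comp (prim_sr.comp h1 snd) h2

theorem prim_rr : Primrec (fun x : List (List (ℕ × ℕ)) × List ℕ × List ℕ =>
    rr x.1 x.2.1 x.2.2) := by
  unfold rr
  refine list_foldl (f := fun x : List (List (ℕ × ℕ)) × List ℕ × List ℕ => x.2.1)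
    (g := fun x => x.2.2)
    (h := fun x y => y.1.flatMap (fun s => sr (x.1.getD y.2 []) s))
    (fst.comp snd) (snd.comp snd) ?_
  refine (list_flatMap
    (f := fun z : (List (List (ℕ × ℕ)) × List ℕ × List ℕ) × (List ℕ × ℕ) => z.2.1)
    (g := fun z s => sr (z.1.1.getD z.2.2 []) s)
    (fst.comp snd) ?_).to₂
  exact (prim_sr.comp (prim_rho (fst.comp (fst.comp fst)) (snd.comp (snd.comp fst))) snd).to₂

theorem prim_prs : Primrec (fun x : List ℕ × ℕ × List (List (ℕ × ℕ)) × List ℕ × ℕ =>
    prs x.1 x.2.1 x.2.2.1 x.2.2.2.1 x.2.2.2.2) := by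
  unfold prs
  refine list_flatMap
    (f := fun x : List ℕ × ℕ × List (List (ℕ × ℕ)) × List ℕ × ℕ => List.range x.2.2.2.2)
    (g := fun x s => (rc x.1 x.2.1 x.2.2.1 x.2.2.2.1 [s]).map (fun s' => (s, s')))
    (list_range.comp (snd.comp (snd.comp (snd.comp snd)))) ?_
  refine (list_map
    (f := fun y : (List ℕ × ℕ × List (List (ℕ × ℕ)) × List ℕ × ℕ) × ℕ =>
      rc y.1.1 y.1.2.1 y.1.2.2.1 y.1.2.2.2.1 [y.2])
    (g := fun y s' => (y.2, s')) ?_ ?_).to₂
  · exact prim_rc.comp (Primrec.pair (fst.comp fst) (Primrec.pair (fst.comp (snd.comp fst))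
      (Primrec.pair (fst.comp (snd.comp (snd.comp fst)))
        (Primrec.pair (fst.comp (snd.comp (snd.comp (snd.comp fst))))
          (list_cons.comp snd (const []))))))
  · exact (Primrec.pair (snd.comp fst) snd).to₂

/-- The check of a certificate is primitive recursive. -/
theorem prim_crt : PrimrecPred (fun x : (List (List ℕ) × List ℕ) × List ℕ × CD =>
    Crt x.1 x.2.1 x.2.2) := by
  have q0 : Primrec (fun x : (List (List ℕ) × List ℕ) × List ℕ × CD => x.2.2.2.2) :=
    snd.comp (snd.comp (snd.comp snd))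
  have rho0 : Primrec (fun x : (List (List ℕ) × List ℕ) × List ℕ × CD => x.2.2.1) :=
    fst.comp (snd.comp snd)
  have sh0 : Primrec (fun x : (List (List ℕ) × List ℕ) × List ℕ × CD => x.2.2.2.1) :=
    fst.comp (snd.comp (snd.comp snd))
  have om0 : Primrec (fun x : (List (List ℕ) × List ℕ) × List ℕ × CD => x.2.1) :=
    fst.comp snd
  have c0 : Primrec (fun x : (List (List ℕ) × List ℕ) × List ℕ × CD => x.1.1) :=
    fst.comp fst
  unfold Crt
  refine PrimrecPred.and ?_ (PrimrecPred.and ?_ (PrimrecPred.and ?_ (PrimrecPred.and ?_ ?_)))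
  · exact Primrec.eq.comp ((list_getD 0).comp sh0 (const 0)) (const 0)
  · exact nat_lt.comp (const 0) q0
  · have h1 : PrimrecRel (fun (p : ℕ × ℕ) (x : (List (List ℕ) × List ℕ) × List ℕ × CD) =>
        p.1 < x.2.2.2.2) := nat_lt.comp₂ (fst.comp fst).to₂ (q0.comp snd).to₂
    exact h1.forall_mem_list.comp (list_flatten.comp rho0) .id
  · have h1 : PrimrecRel (fun (p : ℕ × ℕ) (y : ((List (List ℕ) × List ℕ) × List ℕ × CD) × ℕ) =>
        (y.1.2.2.2.1.getD p.1 0, y.1.2.2.2.1.getD p.2 0) ∈ y.1.2.2.1.getD y.2 []) := by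
      have h2 : PrimrecRel (fun (r : ℕ × ℕ) (s : ℕ × ℕ) => r = s) := Primrec.eq
      have h3 : PrimrecRel (fun (L : List (ℕ × ℕ)) (s : ℕ × ℕ) => ∃ r ∈ L, r = s) :=
        h2.exists_mem_list
      have h4 : Primrec (fun z : (ℕ × ℕ) × ((List (List ℕ) × List ℕ) × List ℕ × CD) × ℕ =>
          z.2.1.2.2.1.getD z.2.2 []) := prim_rho (rho0.comp (fst.comp snd)) (snd.comp snd)
      have h5 : Primrec (fun z : (ℕ × ℕ) × ((List (List ℕ) × List ℕ) × List ℕ × CD) × ℕ =>
          (z.2.1.2.2.2.1.getD z.1.1 0, z.2.1.2.2.2.1.getD z.1.2 0)) :=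
        Primrec.pair ((list_getD 0).comp (sh0.comp (fst.comp snd)) (fst.comp fst))
          ((list_getD 0).comp (sh0.comp (fst.comp snd)) (snd.comp fst))
      refine (h3.comp h4 h5).of_eq ?_
      intro z
      simp
    have h2 : PrimrecRel (fun (a : ℕ) (x : (List (List ℕ) × List ℕ) × List ℕ × CD) =>
        x.1.1.getD a [] ≠ [] ∧
        ∀ p ∈ prs x.2.1 x.2.2.2.2 x.2.2.1 (x.1.1.getD a []) (x.2.2.2.2 + x.2.1.length + 1),
          (x.2.2.2.1.getD p.1 0, x.2.2.2.1.getD p.2 0) ∈ x.2.2.1.getD a []) := by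
      have hg : Primrec (fun z : ℕ × ((List (List ℕ) × List ℕ) × List ℕ × CD) =>
          z.2.1.1.getD z.1 []) := (list_getD []).comp (c0.comp snd) fst
      refine PrimrecPred.and (Primrec.eq.comp hg (const [])).not ?_
      refine (h1.forall_mem_list).comp
        (f := fun z : ℕ × ((List (List ℕ) × List ℕ) × List ℕ × CD) =>
          prs z.2.2.1 z.2.2.2.2.2 z.2.2.2.1 (z.2.1.1.getD z.1 [])
            (z.2.2.2.2.2 + z.2.2.1.length + 1)) (g := fun z => (z.2, z.1)) ?_
        (Primrec.pair snd fst)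
      refine prim_prs.comp (Primrec.pair (om0.comp snd) (Primrec.pair (q0.comp snd)
        (Primrec.pair (rho0.comp snd) (Primrec.pair hg ?_))))
      exact succ.comp (nat_add.comp (q0.comp snd) (list_length.comp (om0.comp snd)))
    exact h2.forall_mem_list.comp (list_range.comp (list_length.comp c0)) .id
  · have h2 : PrimrecRel (fun (r : ℕ) (s : ℕ) => r = s) := Primrec.eq
    have h3 := h2.exists_mem_list
    have h4 := (h3.comp (prim_rr.comp (Primrec.pair rho0 (Primrec.pair om0
      (const [0])))) (const 0)).not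
    refine h4.of_eq ?_
    intro x
    simp

end prim

theorem cp_comp {α β : Type} [Primcodable α] [Primcodable β] {p : β → Prop}
    (hp : PrimrecPred p) {f : α → β} (hf : Computable f) :
    ComputablePred (fun x => p (f x)) := by
  obtain ⟨hd, h1⟩ := hp
  exact ⟨fun x => hd (f x), h1.to_comp.comp hf⟩

/-- The certificate with the number `m`. -/
def dcd (m : ℕ) : CD := (Encodable.decode (α := CD) m).getD ([], [], 0)

theorem prim_dcd : Primrec dcd := by
  unfold dcd
  exact Primrec.option_getD.comp Primrec.decode (Primrec.const ([], [], 0))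

theorem dcd_encode (D : CD) : dcd (Encodable.encode D) = D := by
  unfold dcd
  rw [Encodable.encodek]
  rfl

/-- Existence of a certificate for the word `h^(k c)(w)` is recursively enumerable. -/
theorem crt_re {k : List (List ℕ) × List ℕ → ℕ} (hk : Computable k) :
    REPred (fun c => ∃ D : CD, Crt c (sqn c (k c)) D) := by
  have h1 : Computable (fun x : (List (List ℕ) × List ℕ) × ℕ =>
      ((x.1, sqn x.1 (k x.1), dcd x.2) : (List (List ℕ) × List ℕ) × List ℕ × CD)) := by
    refine Computable.pair Computable.fst (Computable.pair ?_ ?_)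
    · exact prim_sqn.to_comp.comp Computable.fst (hk.comp Computable.fst)
    · exact prim_dcd.to_comp.comp Computable.snd
  have h2 := cp_comp prim_crt h1
  refine (re_of_ex (T := fun c m => Crt c (sqn c (k c)) (dcd m)) h2).of_eq ?_
  intro c
  constructor
  · rintro ⟨m, hm⟩
    exact ⟨_, hm⟩
  · rintro ⟨D, hD⟩
    refine ⟨Encodable.encode D, ?_⟩
    rw [dcd_encode]
    exact hD

end D0L
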