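import Pool.Agent.H.MP_374efc_lc.Th.Cert

/-!
# MP_374efc_lc: regularity gives a local certificate

If the set `Li H om` has finitely many right quotients and does not contain `om`, then a local certificate
exists (`cert_of_reg`).  The states are the sets `{u | ∀ v ∈ P, u ++ v ∈ L}`.
-/

set_option autoImplicit false

namespace D0L

section lang

variable {α : Type} {h : α → List α} {om : List α}

/-- Products of `om` and of words of `Li`. -/
def Mi (h : α → List α) (om : List α) (x : List α) : Prop :=
  Sp (fun y => Li h om y ∨ y = om) x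

theorem li_iff {z : List α} : Li h om z ↔ Mi h om (app h z) := by
  constructor
  · rintro ⟨m, hm⟩
    cases m with
    | zero =>
      rw [lp_zero] at hm
      rw [hm, app_nil]
      exact Sp.nil _
    | succ m =>
      rw [lp_succ] at hm
      exact Sp.mono (fun y hy => hy.imp (fun h1 => ⟨m, h1⟩) id) hm
  · rintro ⟨L, hL, hL'⟩
    have h1 : ∃ m, ∀ y ∈ L, Lp h om m y ∨ y = om := by
      clear hL
      induction L with
      | nil => exact ⟨0, by simp⟩
      | cons y L ih =>
        obtain ⟨m, hm⟩ := ih fun x hx => hL' x (List.mem_cons_of_mem _ hx)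
        rcases hL' y List.mem_cons_self with ⟨k, hk⟩ | h2
        · refine ⟨max k m, ?_⟩
          intro x hx
          rcases List.mem_cons.1 hx with rfl | hx
          · exact Or.inl (lp_mono (le_max_left _ _) hk)
          · exact (hm x hx).imp (lp_mono (le_max_right _ _)) id
        · refine ⟨m, ?_⟩
          intro x hx
          rcases List.mem_cons.1 hx with rfl | hx
          · exact Or.inr h2
          · exact hm x hx
    obtain ⟨m, hm⟩ := h1
    exact ⟨m + 1, lp_succ.2 ⟨L, hL, hm⟩⟩

theorem mi_nil : Mi h om [] := Sp.nil _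

theorem mi_mul {x y : List α} (hx : Mi h om x) (hy : Mi h om y) : Mi h om (x ++ y) :=
  Sp.mul hx hy

theorem mi_om : Mi h om om := Sp.one (Or.inr rfl)

theorem mi_of_li {x : List α} (hx : Li h om x) : Mi h om x := Sp.one (Or.inl hx)

theorem li_nil : Li h om [] := ⟨0, rfl⟩

/-- Words which can be completed by all words of `P`. -/
def dn (h : α → List α) (om : List α) (P : Set (List α)) : Set (List α) :=
  {u | ∀ v ∈ P, Li h om (u ++ v)}

/-- The closure of a set. -/
def cl (h : α → List α) (om : List α) (X : Set (List α)) : Set (List α) :=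
  dn h om {v | ∀ u ∈ X, Li h om (u ++ v)}

theorem subset_cl (X : Set (List α)) : X ⊆ cl h om X := by
  intro u hu v hv
  exact hv u hu

theorem cl_li : cl h om {u | Li h om u} = {u | Li h om u} := by
  apply Set.Subset.antisymm
  · intro u hu
    have h1 := hu [] (fun w hw => by
      rw [List.append_nil]
      exact hw)
    rwa [List.append_nil] at h1
  · exact subset_cl _

theorem cl_step {X Y : Set (List α)} {a : α} (hXY : ∀ u ∈ X, u ++ [a] ∈ Y) :
    ∀ u ∈ cl h om X, u ++ [a] ∈ cl h om Y := by
  intro u hu v hv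
  have h1 := hu (a :: v) (fun w hw => by
    have h2 := hv _ (hXY w hw)
    rwa [List.append_assoc] at h2)
  rwa [List.append_assoc]

/-- Products of a word of `Mi` and a word of `X`. -/
def ml (h : α → List α) (om : List α) (X : Set (List α)) : Set (List α) :=
  {z | ∃ m u, Mi h om m ∧ u ∈ X ∧ z = m ++ u}

/-- The preimage under the morphism. -/
def pre (h : α → List α) (X : Set (List α)) : Set (List α) := {u | app h u ∈ X}

theorem pre_ml_li : pre h (ml h om {u | Li h om u}) = {u | Li h om u} := by
  ext z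
  constructor
  · rintro ⟨m, u, h1, h2, h3⟩
    change Li h om z
    rw [li_iff, h3]
    exact mi_mul h1 (mi_of_li h2)
  · intro hz
    have h1 := li_iff.1 hz
    exact ⟨app h z, [], h1, li_nil, by rw [List.append_nil]⟩

theorem finite_dn (hreg : (Set.range fun v : List α => {u | Li h om (u ++ v)}).Finite) :
    {A | ∃ P, A = dn h om P}.Finite := by
  have h1 := (hreg.powerset).image (fun T : Set (Set (List α)) => ⋂₀ T)
  refine h1.subset ?_
  rintro A ⟨P, rfl⟩
  refine ⟨(fun v : List α => {u | Li h om (u ++ v)}) '' P, ?_, ?_⟩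
  · rw [Set.mem_powerset_iff]
    rintro _ ⟨v, _, rfl⟩
    exact ⟨v, rfl⟩
  · ext u
    simp only [Set.mem_sInter, Set.mem_image, forall_exists_index, and_imp,
      forall_apply_eq_imp_iff₂]
    exact Iff.rfl

/-- A numbering of a finite family of sets with a prescribed first element. -/
theorem exists_numbering {β : Type} {F : Set (Set β)} (hF : F.Finite) {A0 : Set β}
    (h0 : A0 ∈ F) : ∃ (q : ℕ) (A : ℕ → Set β) (ix : Set β → ℕ), 0 < q ∧ A 0 = A0 ∧ ix A0 = 0 ∧
      (∀ X ∈ F, ix X < q ∧ A (ix X) = X) := by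
  classical
  set T : List (Set β) := A0 :: hF.toFinset.toList with hT
  refine ⟨T.length, fun k => T.getD k A0, fun X => T.idxOf X, by simp [hT], by simp [hT],
    by simp [hT], ?_⟩
  intro X hX
  have h1 : X ∈ T := by
    rw [hT]
    refine List.mem_cons_of_mem _ ?_
    rw [Finset.mem_toList, Set.Finite.mem_toFinset]
    exact hX
  have h2 := List.idxOf_lt_length_iff.2 h1
  refine ⟨h2, ?_⟩
  change T.getD (T.idxOf X) A0 = X
  rw [List.getD_eq_getElem _ _ h2, List.getElem_idxOf]

end lang

theorem getD_map_range {β : Type} (f : ℕ → β) (d : β) {B k : ℕ} (hk : k < B) :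
    ((List.range B).map f).getD k d = f k := by
  have h1 : k < ((List.range B).map f).length := by
    rw [List.length_map, List.length_range]
    exact hk
  rw [List.getD_eq_getElem _ _ h1, List.getElem_map, List.getElem_range]

theorem getD_ofFn' {β : Type} {n : ℕ} (f : Fin n → β) (d : β) (a : Fin n) :
    (List.ofFn f).getD (a : ℕ) d = f a := by
  have h1 : (a : ℕ) < (List.ofFn f).length := by
    rw [List.length_ofFn]
    exact a.2
  rw [List.getD_eq_getElem _ _ h1, List.getElem_ofFn]

section data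

variable {n : ℕ} (H : Fin n → List (Fin n)) (om : List (Fin n)) (q : ℕ)
  (A : ℕ → Set (List (Fin n))) (ix : Set (List (Fin n)) → ℕ)

open Classical in
/-- The relations of the letters. -/
noncomputable def rhoT : List (List (ℕ × ℕ)) := List.ofFn (fun a : Fin n =>
  (((List.range q).flatMap fun i => (List.range q).map fun j => (i, j))).filter
    (fun p => decide (∀ u ∈ A p.1, u ++ [a] ∈ A p.2)))

/-- The languages of the states. -/
def langT (k : ℕ) : Set (List (Fin n)) :=
  if k < q then ml H om (A k) else ml H om {om.take (k - q)}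

/-- The shift of the states. -/
def shT : List ℕ :=
  (List.range (q + om.length + 1)).map (fun k => ix (cl H om (pre H (langT H om q A k))))

variable {H om q A ix}

theorem rl_rhoT {a : Fin n} {s s' : ℕ} : rl (rhoT q A) (a : ℕ) s s' ↔
    s < q ∧ s' < q ∧ ∀ u ∈ A s, u ++ [a] ∈ A s' := by
  classical
  unfold rl rhoT
  rw [getD_ofFn']
  simp only [List.mem_filter, List.mem_flatMap, List.mem_range, List.mem_map, Prod.mk.injEq,
    decide_eq_true_eq]
  constructor
  · rintro ⟨⟨i, h1, j, h2, rfl, rfl⟩, h3⟩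
    exact ⟨h1, h2, h3⟩
  · rintro ⟨h1, h2, h3⟩
    exact ⟨⟨s, h1, s', h2, rfl, rfl⟩, h3⟩

theorem langT_lt {k : ℕ} (hk : k < q) : langT H om q A k = ml H om (A k) := if_pos hk

theorem langT_pos {i : ℕ} (hq : 0 < q) (hA0 : A 0 = {u | Li H om u}) (hi : i ≤ om.length) :
    (∀ u ∈ ml H om {om.take i}, u ∈ langT H om q A (psn q om.length i)) ∧
    (i < om.length → ∀ u ∈ langT H om q A (psn q om.length i),
      u ∈ ml H om {om.take i}) := by
  unfold psn
  split_ifs with h1
  · rw [langT_lt hq, hA0]
    constructor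
    · rintro u ⟨m, v, h2, h3, rfl⟩
      rw [Set.mem_singleton_iff] at h3
      rcases h1 with rfl | rfl
      · refine ⟨m, [], h2, li_nil, ?_⟩
        rw [h3, List.take_zero]
      · refine ⟨m ++ v, [], ?_, li_nil, by rw [List.append_nil]⟩
        rw [h3, List.take_length]
        exact mi_mul h2 mi_om
    · rintro h2 u ⟨m, v, h3, h4, rfl⟩
      rcases h1 with rfl | rfl
      · refine ⟨m ++ v, [], mi_mul h3 (mi_of_li h4), ?_, by rw [List.append_nil]⟩
        rw [Set.mem_singleton_iff, List.take_zero]
      · omega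
  · have h2 : ¬ q + i < q := by omega
    have h3 : langT H om q A (q + i) = ml H om {om.take i} := by
      unfold langT
      rw [if_neg h2, Nat.add_sub_cancel_left]
    rw [h3]
    exact ⟨fun u hu => hu, fun _ u hu => hu⟩

/-- One step. -/
theorem langT_step (hq : 0 < q) (hA0 : A 0 = {u | Li H om u}) {b : Fin n} {s s' : ℕ}
    (hss : rp q (om.map Fin.val) (rl (rhoT q A)) (b : ℕ) s s') :
    (∀ u ∈ langT H om q A s, u ++ [b] ∈ langT H om q A s') ∧ s' < q + om.length + 1 := by
  rcases hss with h1 | ⟨i, h1, h2, h3⟩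
  · obtain ⟨h2, h3, h4⟩ := rl_rhoT.1 h1
    refine ⟨?_, by omega⟩
    rw [langT_lt h2, langT_lt h3]
    rintro u ⟨m, v, h5, h6, rfl⟩
    exact ⟨m, v ++ [b], h5, h4 v h6, by rw [List.append_assoc]⟩
  · rw [List.length_map] at h2 h3
    have h4 : om[i]? = some b := by
      rw [List.getElem?_map] at h1
      rcases h5 : om[i]? with _ | x
      · rw [h5] at h1
        simp at h1
      · rw [h5] at h1
        simp only [Option.map_some, Option.some.injEq] at h1
        rw [Fin.ext h1]
    obtain ⟨h5, h6⟩ := List.getElem?_eq_some_iff.1 h4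
    refine ⟨?_, ?_⟩
    · intro u hu
      rw [h2] at hu
      rw [h3]
      obtain ⟨m, v, h7, h8, rfl⟩ := (langT_pos hq hA0 h5.le).2 h5 u hu
      apply (langT_pos hq hA0 h5).1
      rw [Set.mem_singleton_iff] at h8
      refine ⟨m, om.take (i + 1), h7, rfl, ?_⟩
      rw [h8, List.take_succ_eq_append_getElem h5, h6, List.append_assoc]
    · rw [h3]
      unfold psn
      split_ifs <;> omega

theorem langT_word (hq : 0 < q) (hA0 : A 0 = {u | Li H om u}) (w : List (Fin n)) :
    ∀ {s s' : ℕ}, Rw (rp q (om.map Fin.val) (rl (rhoT q A))) (w.map Fin.val) s s' →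
    (∀ u ∈ langT H om q A s, u ++ w ∈ langT H om q A s') ∧
      (w ≠ [] → s' < q + om.length + 1) := by
  induction w with
  | nil =>
    intro s s' h1
    rw [List.map_nil, rw_nil] at h1
    rw [h1]
    exact ⟨fun u hu => by rwa [List.append_nil], fun h2 => absurd rfl h2⟩
  | cons b w ih =>
    rintro s s' ⟨t, h1, h2⟩
    obtain ⟨h3, h4⟩ := langT_step hq hA0 h1
    obtain ⟨h5, h6⟩ := ih h2
    refine ⟨?_, ?_⟩
    · intro u hu
      have h7 := h5 _ (h3 u hu)
      rwa [List.append_assoc] at h7
    · intro _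
      by_cases hw : w = []
      · rw [hw, List.map_nil, rw_nil] at h2
        rw [← h2]
        exact h4
      · exact h6 hw

theorem rl_word (w : List (Fin n)) : ∀ {s s' : ℕ}, Rw (rl (rhoT q A)) (w.map Fin.val) s s' →
    ∀ u ∈ A s, u ++ w ∈ A s' := by
  induction w with
  | nil =>
    intro s s' h1 u hu
    rw [List.map_nil, rw_nil] at h1
    rw [← h1, List.append_nil]
    exact hu
  | cons b w ih =>
    rintro s s' ⟨t, h1, h2⟩ u hu
    have h3 := ih h2 _ ((rl_rhoT.1 h1).2.2 u hu)
    rwa [List.append_assoc] at h3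

end data

/-- **Regularity gives a local certificate.** -/
theorem cert_of_reg {n : ℕ} {H : Fin n → List (Fin n)} {om : List (Fin n)}
    (hne : ∀ a, H a ≠ []) (b0 : List (Fin n))
    (hreg : (Set.range fun v : List (Fin n) => {u | Li H om (u ++ v)}).Finite)
    (hom : ¬ Li H om om) : ∃ D : CD, Crt (cd H b0) (om.map Fin.val) D := by
  classical
  have hL : {u | Li H om u} ∈ {A | ∃ P, A = dn H om P} := by
    refine ⟨{[]}, ?_⟩
    ext u
    simp [dn]
  obtain ⟨q, A, ix, hq, hA0, hix0, hix⟩ := exists_numbering (finite_dn hreg) hL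
  have hT : ∀ k, cl H om (pre H (langT H om q A k)) ∈ {A | ∃ P, A = dn H om P} :=
    fun k => ⟨_, rfl⟩
  have hsh : ∀ k < q + om.length + 1, (shT H om q A ix).getD k 0 =
      ix (cl H om (pre H (langT H om q A k))) := fun k hk => getD_map_range _ _ hk
  refine ⟨(rhoT q A, shT H om q A ix, q), ?_, hq, ?_, ?_, ?_⟩
  · change (shT H om q A ix).getD 0 0 = 0
    rw [hsh 0 (by omega), langT_lt hq, hA0, pre_ml_li, cl_li, hix0]
  · intro p hp
    change p ∈ (rhoT q A).flatten at hp
    obtain ⟨r, h1, h2⟩ := List.mem_flatten.1 hp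
    unfold rhoT at h1
    rw [List.mem_ofFn] at h1
    obtain ⟨a, rfl⟩ := h1
    have h3 : rl (rhoT q A) (a : ℕ) p.1 p.2 := by
      unfold rl rhoT
      rw [getD_ofFn']
      exact h2
    exact (rl_rhoT.1 h3).1
  · intro a ha
    rw [List.mem_range] at ha
    have ha' : a < n := by
      unfold cd at ha
      rwa [List.length_ofFn] at ha
    have h1 : (cd H b0).1.getD a [] = (H ⟨a, ha'⟩).map Fin.val := hs_cd ⟨a, ha'⟩
    rw [h1]
    refine ⟨?_, ?_⟩
    · intro h2
      exact hne ⟨a, ha'⟩ (List.map_eq_nil_iff.1 h2)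
    · rintro ⟨s, s'⟩ hss
      rw [List.length_map] at hss
      change (s, s') ∈ prs (om.map Fin.val) q (rhoT q A) _ (q + om.length + 1) at hss
      obtain ⟨h2, h3⟩ := mem_prs.1 hss
      obtain ⟨h4, h5⟩ := langT_word hq hA0 (H ⟨a, ha'⟩) h3
      change ((shT H om q A ix).getD s 0, (shT H om q A ix).getD s' 0) ∈ (rhoT q A).getD a []
      rw [hsh s h2, hsh s' (h5 (hne _))]
      change rl (rhoT q A) ((⟨a, ha'⟩ : Fin n) : ℕ) _ _
      rw [rl_rhoT]
      obtain ⟨h6, h7⟩ := hix _ (hT s)
      obtain ⟨h8, h9⟩ := hix _ (hT s')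
      refine ⟨h6, h8, ?_⟩
      rw [h7, h9]
      refine cl_step ?_
      intro u hu
      have h10 := h4 (app H u) hu
      change app H (u ++ [(⟨a, ha'⟩ : Fin n)]) ∈ langT H om q A s'
      rw [app_append, app_singleton]
      exact h10
  · intro h1
    obtain ⟨s, h2, h3⟩ := mem_rr.1 h1
    rw [List.mem_singleton] at h2
    rw [h2] at h3
    have h4 := rl_word om h3 [] (by rw [hA0]; exact li_nil)
    rw [hA0, List.nil_append] at h4
    exact hom h4

end D0L
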